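import Pool.Agent.H44.TY.Clc
import Pool.Agent.H44.LA.Defs
import Pool.Agent.H66.GEO.Defs
import Pool.Agent.H18.LA.Dis

/-!
# TYPES: a lift of the collar which closes after two turns comes from a univalent pull back of the window

`LAz`: Lemma A for the critical points accumulated by `z`.
-/

set_option autoImplicit false

open Filter Topology Metric Set MeasureTheory

namespace Pool.Agent.H44.TY

open Pool.Agent.H56.UD Pool.Agent.H55.PB Pool.Agent.H56.WP Pool.Agent.H66.GEO Pool.Agent.H44.LA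

variable {f : ℂ → ℂ} {U J P Cr : Set ℂ} {δ : ℝ} {η : ℂ → ℂ → ℂ} {ρ : ℝ}

/-- LEMMA A for the points of `A` -/
def LAz (f : ℂ → ℂ) (U J P A : Set ℂ) (δ : ℝ) (z : ℂ) : Prop :=
  ∀ θ C : ℝ, 0 < θ → θ < 1 → ∀ b ∈ A, ∃ ε0 : ℝ, 0 < ε0 ∧ ∀ (K m : ℕ) (y a : ℂ) (ε : ℝ) (Φ g : ℂ → ℂ), y ∈ J → ε ≤ ε0 →
    Wd f U J P δ K θ y ε Φ → ‖a‖ ≤ θ → Φ a = b → DifferentiableOn ℂ g (ball 0 1) →
    (∀ v ∈ ball (0 : ℂ) 1, g v ∈ dm f U J δ (m + K) ∧ f^[m] (g v) = Φ v) → ¬ ‖g 0 - z‖ ≤ C * ‖deriv g 0‖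

/-- Lemma A, uniformly in the (finitely many) critical points -/
theorem la_uni {A : Set ℂ} (hA : A.Finite) {z : ℂ} (hLA : LAz f U J P A δ z) {θ C : ℝ} (hθ : 0 < θ) (hθ1 : θ < 1) :
    ∃ ε0 : ℝ, 0 < ε0 ∧ ∀ b ∈ A, ∀ (K m : ℕ) (y a : ℂ) (ε : ℝ) (Φ g : ℂ → ℂ), y ∈ J → ε ≤ ε0 →
    Wd f U J P δ K θ y ε Φ → ‖a‖ ≤ θ → Φ a = b → DifferentiableOn ℂ g (ball 0 1) →
    (∀ v ∈ ball (0 : ℂ) 1, g v ∈ dm f U J δ (m + K) ∧ f^[m] (g v) = Φ v) → ¬ ‖g 0 - z‖ ≤ C * ‖deriv g 0‖ := by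
  have h1 : ∀ᶠ e in 𝓝[>] (0 : ℝ), ∀ b ∈ A, ∀ (K m : ℕ) (y a : ℂ) (ε : ℝ) (Φ g : ℂ → ℂ), y ∈ J → ε ≤ e →
    Wd f U J P δ K θ y ε Φ → ‖a‖ ≤ θ → Φ a = b → DifferentiableOn ℂ g (ball 0 1) →
    (∀ v ∈ ball (0 : ℂ) 1, g v ∈ dm f U J δ (m + K) ∧ f^[m] (g v) = Φ v) → ¬ ‖g 0 - z‖ ≤ C * ‖deriv g 0‖ := by
    rw [hA.eventually_all]
    intro b hb
    obtain ⟨ε0, hε0, h2⟩ := hLA θ C hθ hθ1 b hb
    filter_upwards [Ioo_mem_nhdsGT hε0] with e he K m y a ε Φ g hy hε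
    exact h2 K m y a ε Φ g hy (hε.trans he.2.le)
  obtain ⟨e, h2, h3⟩ := (h1.and self_mem_nhdsWithin).exists
  exact ⟨e, h3, h2⟩

/-- two turns in the coordinate `sa` -/
theorem sa_turn (α ζ : ℂ) : sa α (ζ + 2 * Real.pi * Complex.I) = - sa α ζ := by
  have e1 : Complex.exp (ζ + 2 * Real.pi * Complex.I) = Complex.exp ζ := by
    rw [Complex.exp_add, Complex.exp_two_pi_mul_I, mul_one]
  have e2 : Complex.exp (-(ζ + 2 * Real.pi * Complex.I)) = Complex.exp (-ζ) := by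
    rw [Complex.exp_neg, e1, Complex.exp_neg]
  have e3 : La α (ζ + 2 * Real.pi * Complex.I) = La α ζ := by
    simp only [La, e1, e2]
  rw [sa, sa, e3, show (ζ + 2 * Real.pi * Complex.I + La α ζ) / 2 = (ζ + La α ζ) / 2 + Real.pi * Complex.I by ring,
    Complex.exp_add, Complex.exp_pi_mul_I]
  ring

/-- rotation of a window -/
theorem wd_rot {K : ℕ} {θ : ℝ} {y : ℂ} {ε : ℝ} {Φ : ℂ → ℂ} (hW : Wd f U J P δ K θ y ε Φ) {σ : ℂ} (hσ : ‖σ‖ = 1) :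
    Wd f U J P δ K θ y ε (fun x => Φ (σ * x)) := by
  have hm : ∀ x ∈ ball (0 : ℂ) 1, σ * x ∈ ball (0 : ℂ) 1 := fun x hx => by
    rw [mem_ball_zero_iff] at hx ⊢
    rwa [norm_mul, hσ, one_mul]
  have hσ0 : σ ≠ 0 := by
    intro h0
    rw [h0, norm_zero] at hσ
    exact zero_ne_one hσ
  refine ⟨hW.diff.comp (differentiableOn_id.const_mul _) hm, fun x hx y hy he => ?_, fun v hv => hW.val _ (hm v hv),
    fun v h1 h2 => hW.col _ ?_ ?_⟩
  · exact mul_left_cancel₀ hσ0 (hW.inj (hm x hx) (hm y hy) he)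
  · rwa [norm_mul, hσ, one_mul]
  · rwa [norm_mul, hσ, one_mul]

/-- the constants -/
theorem typ_con {θ ρa ρb : ℝ} (hθ : 0 < θ) (hθ1 : θ < 1) (ha : θ < ρa) (hb : ρb < 1) : ∃ R r : ℝ, 0 < R ∧ R < 1 ∧ 0 < r ∧
    (∀ a x ζ : ℂ, ‖a‖ ≤ θ → ‖x‖ < 1 → bet a x = Complex.exp ζ → ‖Complex.exp ζ‖ ≤ ρb → ‖x‖ ≤ R) ∧
    ∀ ζ : ℂ, ρa ≤ ‖Complex.exp ζ‖ → ‖Complex.exp ζ‖ ≤ ρb → closedBall ζ r ⊆ Sp (Real.log θ) 0 := by
  obtain ⟨ρ', hρ'⟩ : ∃ ρ', ρ' = max ρb θ := ⟨_, rfl⟩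
  have h1 : θ ≤ ρ' := by rw [hρ']; exact le_max_right _ _
  have h2 : ρ' < 1 := by rw [hρ']; exact max_lt hb hθ1
  have h3 : ρb ≤ ρ' := by rw [hρ']; exact le_max_left _ _
  have h0 : 0 < ρ' := by linarith
  have hq1 : (θ + ρ') / (1 + θ * ρ') < 1 := by
    rw [div_lt_one (by positivity)]
    nlinarith
  have hq0 : 0 < (θ + ρ') / (1 + θ * ρ') := by positivity
  have hl1 : Real.log θ < Real.log ρa := Real.log_lt_log hθ ha
  have hl2 : Real.log ρ' < 0 := Real.log_neg h0 h2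
  refine ⟨Real.sqrt ((θ + ρ') / (1 + θ * ρ')), min (Real.log ρa - Real.log θ) (-Real.log ρ') / 2, Real.sqrt_pos.2 hq0, ?_, ?_, ?_, ?_⟩
  · rw [Real.sqrt_lt' one_pos]
    simpa using hq1
  · have : 0 < min (Real.log ρa - Real.log θ) (-Real.log ρ') := lt_min (by linarith) (by linarith)
    linarith
  · intro a x ζ ha' hx he hζ
    refine Real.le_sqrt_of_sq_le (bet_sq_le h2 hθ1 ha' hx ?_)
    rw [he]
    exact hζ.trans h3
  · intro ζ h4 h5 w hw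
    have h6 : 0 < ‖Complex.exp ζ‖ := by linarith
    have hre : Real.log ‖Complex.exp ζ‖ = ζ.re := by rw [Complex.norm_exp, Real.log_exp]
    have h7 : Real.log ρa ≤ ζ.re := by
      rw [← hre]
      exact Real.log_le_log (by linarith) h4
    have h8 : ζ.re ≤ Real.log ρ' := by
      rw [← hre]
      exact Real.log_le_log h6 (h5.trans h3)
    have h9 : |w.re - ζ.re| ≤ min (Real.log ρa - Real.log θ) (-Real.log ρ') / 2 := by
      rw [mem_closedBall, dist_eq_norm] at hw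
      have := Complex.abs_re_le_norm (w - ζ)
      rw [Complex.sub_re] at this
      exact this.trans hw
    have h10 := abs_le.1 h9
    have h11 := min_le_left (Real.log ρa - Real.log θ) (-Real.log ρ')
    have h12 := min_le_right (Real.log ρa - Real.log θ) (-Real.log ρ')
    constructor
    · linarith [h10.1]
    · linarith [h10.2]

/-- TYPES -/
theorem typ_gen (h : PS f U J P Cr δ η ρ) {z : ℂ}
    (hLA : LAz f U J P {b | b ∈ Cr ∧ Rc f b z} δ z)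
    {θ M ρa ρb : ℝ} (hθ : 0 < θ) (hθ1 : θ < 1) (ha : θ < ρa) (hb : ρb < 1) :
    ∃ ε0 : ℝ, 0 < ε0 ∧ ∀ (k : ℕ) (y : ℂ) (ε : ℝ) (Φ q : ℂ → ℂ) (ζ ζ1 : ℂ), y ∈ J → ε ≤ ε0 → Wd f U J P δ 0 θ y ε Φ →
      (∀ c' ∈ Cr, ∀ j : ℕ, f^[j] c' ∈ ball y ε → Rc f c' z) →
      DifferentiableOn ℂ q (St (Real.log θ) 0) →
      (∀ t ∈ St (Real.log θ) 0, q t ∈ dm f U J δ k ∧ f^[k] (q t) = Φ (Complex.exp t)) →
      ζ ∈ St (Real.log θ) 0 → ρa ≤ ‖Complex.exp ζ‖ → ‖Complex.exp ζ‖ ≤ ρb → ‖q ζ - z‖ ≤ M * ‖deriv q ζ‖ →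
      ζ1 ∈ St (Real.log θ) 0 → q (ζ1 + 4 * Real.pi * Complex.I) = q ζ1 →
      ∃ g : ℂ → ℂ, Un f U J δ k Φ g ∧ ∀ t ∈ St (Real.log θ) 0, q t = g (Complex.exp t) := by
  have hd0 := dth_pos hθ
  have hd1 := dth_lt hθ hθ1
  obtain ⟨ε1, hε1, hε1δ, hc1⟩ := clc h hθ hθ1 (ρ0 := (1 + θ) / 2) (by linarith) (by linarith)
  obtain ⟨ε2, hε2, hε2δ, hc2⟩ := clc h hd0 hd1 (ρ0 := (1 + dth θ) / 2) (by linarith) (by linarith)
  obtain ⟨R, r, hR0, hR1, hr, hRx, hrS⟩ := typ_con hθ hθ1 ha hb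
  obtain ⟨D, hD, hdis⟩ := Pool.Agent.H18.LA.dis hR0 hR1
  obtain ⟨ε3, hε3, hla⟩ := la_uni (A := {b | b ∈ Cr ∧ Rc f b z}) (h.Cf.subset fun b hb => hb.1) hLA
    (θ := dth θ) (C := D + |M| * (D / r)) hd0 hd1
  refine ⟨min (min ε1 ε2) ε3, lt_min (lt_min hε1 hε2) hε3, ?_⟩
  intro k y ε Φ q ζ ζ1 hy hε hW hcr hq hv hζ hζa hζb hqz hζ1 hcl
  have hεε1 : ε ≤ ε1 := hε.trans ((min_le_left _ _).trans (min_le_left _ _))
  have hεε2 : ε ≤ ε2 := hε.trans ((min_le_left _ _).trans (min_le_right _ _))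
  have hεε3 : ε ≤ ε3 := hε.trans (min_le_right _ _)
  change DifferentiableOn ℂ q (Sp (Real.log θ) 0) at hq
  change ∀ t ∈ Sp (Real.log θ) 0, _ at hv
  change ζ ∈ Sp (Real.log θ) 0 at hζ
  change ζ1 ∈ Sp (Real.log θ) 0 at hζ1
  show ∃ g : ℂ → ℂ, Un f U J δ k Φ g ∧ ∀ t ∈ Sp (Real.log θ) 0, q t = g (Complex.exp t)
  have hv0 : ∀ t ∈ Sp (Real.log θ) 0, q t ∈ dm f U J δ (k + 0) ∧ f^[k] (q t) = Φ (Complex.exp t) := hv
  have hmul : ∀ t ∈ Sp (Real.log θ) 0, Complex.exp t ∈ ball (0 : ℂ) 1 := fun t ht =>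
    mem_ball_zero_iff.2 ((Sp_exp1 hθ).1 ht).2
  -- closed at every point
  have h4re : ∀ t : ℂ, (t + 4 * Real.pi * Complex.I).re = t.re := by
    intro t
    simp
  have h4m : ∀ t ∈ Sp (Real.log θ) 0, t + 4 * Real.pi * Complex.I ∈ Sp (Real.log θ) 0 := by
    intro t ht
    show _ < (t + 4 * Real.pi * Complex.I).re ∧ (t + 4 * Real.pi * Complex.I).re < 0
    rw [h4re]
    exact ht
  have h4e : ∀ t : ℂ, Complex.exp (t + 4 * Real.pi * Complex.I) = Complex.exp t := by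
    intro t
    have := exp_int t 2
    rw [← this]
    congr 1
    push_cast
    ring
  have hper : ∀ t ∈ Sp (Real.log θ) 0, q (t + 4 * Real.pi * Complex.I) = q t := by
    refine st_uniq h (k := k) (K := 0) hθ hW (q := fun t => q (t + 4 * Real.pi * Complex.I)) ?_ hq.continuousOn ?_ hv0 hζ1 hcl
    · exact hq.continuousOn.comp (by fun_prop) h4m
    · intro t ht
      have := hv0 _ (h4m t ht)
      rwa [h4e] at this
  by_cases hP : ∃ u ∈ ball (0 : ℂ) 1, Φ u ∈ P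
  swap
  · have hdm0 : ∀ u ∈ ball (0 : ℂ) 1, Φ u ∈ thickening δ J := fun u hu => by
      have := (hW.val u hu).1
      rwa [dm_zero] at this
    obtain ⟨G, hGd, hG0, hGv⟩ := h.lift k (ball 0 1) Φ (Complex.exp ζ) (q ζ) (convex_ball _ _) isOpen_ball hW.diff
      (fun u hu => ⟨hdm0 u hu, fun hp => hP ⟨u, hu, hp⟩⟩) (hmul ζ hζ) (hv ζ hζ).1 (hv ζ hζ).2
    refine ⟨G, ⟨hGd, hGv⟩, ?_⟩
    exact st_uniq h (k := k) (K := 0) hθ hW (q' := fun t => G (Complex.exp t)) hq.continuousOn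
      (hGd.continuousOn.comp Complex.continuous_exp.continuousOn hmul) hv0 (fun t ht => hGv _ (hmul t ht)) hζ hG0.symm
  obtain ⟨u, hu, huP⟩ := hP
  have huθ : ‖u‖ ≤ θ := by
    by_contra hcon
    exact hW.col u (not_le.1 hcon) (mem_ball_zero_iff.1 hu) huP
  rcases hc1 k 0 y ε Φ q u hy hεε1 hW (by linarith) (h.PJ huP) hq hv0 with ⟨g, hgW, hgv, hgq⟩ |
    ⟨i, l, hil, c, hc, a, s, g, v, Φ', hs, hCv, hi⟩
  · exact ⟨g, ⟨hgW.diff, fun v hv => hgv v hv⟩, hgq⟩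
  exfalso
  rw [zero_add] at hCv
  have haθ := hCv.ca
  have ha1 : ‖a‖ < 1 := haθ.trans_lt hθ1
  have hsn : ‖s‖ = 1 := by rcases hs with rfl | rfl <;> simp
  have hss : s * s = 1 := by rcases hs with rfl | rfl <;> simp
  have hbs : ∀ x : ℂ, bet a (s * x) = bet a x := by
    intro x
    rcases hs with rfl | rfl
    · rw [one_mul]
    · rw [neg_one_mul, bet_neg]
  have hsb : ∀ t ∈ Sp (Real.log θ) 0, s * sa a t ∈ ball (0 : ℂ) 1 := fun t ht => by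
    rw [mem_ball_zero_iff, norm_mul, hsn, one_mul]
    exact sa_lt' hθ hθ1 haθ ht
  have hg1 : ∀ t ∈ Sp (Real.log θ) 0, f (f^[i] (q t)) = g (Complex.exp t) := fun t ht => by
    rw [hi t ht, (hCv.val _ (hsb t ht)).2, hbs, bet_sa' hθ hθ1 haθ ht]
  have hg2 : ∀ t ∈ Sp (Real.log θ) 0, f^[l] (g (Complex.exp t)) = Φ (Complex.exp t) := fun t ht => by
    rw [← hg1 t ht, ← (hv t ht).2, ← hil, show i + 1 + l = l + (i + 1) by ring, Function.iterate_add_apply,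
      Function.iterate_succ_apply']
  -- the double cover coordinate
  have hzd := zt_diff hθ hθ1 haθ
  have hzm : ∀ t ∈ Sp (Real.log (dth θ)) 0, Zt a t ∈ Sp (Real.log θ) 0 := fun t ht => zt_mem hθ hθ1 haθ ht
  have hemul : ∀ t ∈ Sp (Real.log (dth θ)) 0, Complex.exp t ∈ ball (0 : ℂ) 1 := fun t ht =>
    mem_ball_zero_iff.2 ((Sp_exp1 hd0).1 ht).2
  obtain ⟨e1, he1, he⟩ : ∃ e1 : ℂ, (e1 = 1 ∨ e1 = -1) ∧ ∀ t ∈ Sp (Real.log (dth θ)) 0, sa a (Zt a t) = e1 * Complex.exp t := by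
    have hsq : EqOn ((fun t => sa a (Zt a t)) ^ 2) (Complex.exp ^ 2) (Sp (Real.log (dth θ)) 0) := by
      intro t ht
      show sa a (Zt a t) ^ 2 = Complex.exp t ^ 2
      have e2 := bet_sa' hθ hθ1 haθ (hzm t ht)
      rw [zt_exp hθ hθ1 haθ ht] at e2
      rcases bet_eq ha1 (sa_lt' hθ hθ1 haθ (hzm t ht)) (mem_ball_zero_iff.1 (hemul t ht)) e2 with e3 | e3
      · rw [e3]
      · rw [e3, neg_sq]
    rcases (Sp_convex _ _).isPreconnected.eq_or_eq_neg_of_sq_eq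
      ((sa_diff' hθ haθ).comp hzd hzm).continuousOn Complex.continuous_exp.continuousOn hsq
      (fun {t} _ => Complex.exp_ne_zero t) with e3 | e3
    · exact ⟨1, Or.inl rfl, fun t ht => by rw [one_mul]; exact e3 ht⟩
    · exact ⟨-1, Or.inr rfl, fun t ht => by rw [neg_one_mul]; exact e3 ht⟩
  have he1n : ‖e1‖ = 1 := by rcases he1 with rfl | rfl <;> simp
  have he11 : e1 * e1 = 1 := by rcases he1 with rfl | rfl <;> simp
  obtain ⟨σ, hσ⟩ : ∃ σ, σ = s * e1 := ⟨_, rfl⟩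
  have hσn : ‖σ‖ = 1 := by rw [hσ, norm_mul, hsn, he1n, one_mul]
  have hW2 : Wd f U J P δ (l + 1) (dth θ) y ε (fun x => Φ' (σ * x)) := wd_rot hCv.wd hσn
  have hΦ20 : Φ' (σ * 0) = c := by rw [mul_zero, hCv.z0]
  have hq2 : DifferentiableOn ℂ (fun t => q (Zt a t)) (Sp (Real.log (dth θ)) 0) := hq.comp hzd hzm
  have hv2 : ∀ t ∈ Sp (Real.log (dth θ)) 0, q (Zt a t) ∈ dm f U J δ (i + (l + 1)) ∧
      f^[i] (q (Zt a t)) = Φ' (σ * Complex.exp t) := by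
    intro t ht
    refine ⟨?_, ?_⟩
    · have := (hv _ (hzm t ht)).1
      rwa [← hil, show i + 1 + l = i + (l + 1) by ring] at this
    · rw [hi _ (hzm t ht), he t ht, hσ, mul_assoc]
  obtain ⟨t0, ht0, ht0S⟩ : ∃ t0 : ℂ, Complex.exp t0 ≠ 0 ∧ t0 ∈ Sp (Real.log (dth θ)) 0 := by
    refine ⟨((Real.log (dth θ) / 2 : ℝ) : ℂ), Complex.exp_ne_zero _, ?_⟩
    have := Real.log_neg hd0 hd1
    constructor
    · rw [Complex.ofReal_re]; linarith
    · rw [Complex.ofReal_re]; linarith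
  rcases hc2 i (l + 1) y ε (fun x => Φ' (σ * x)) (fun t => q (Zt a t)) 0 hy hεε2 hW2 (by rw [norm_zero]; linarith)
      (by show Φ' (σ * 0) ∈ J; rw [hΦ20]; exact h.CJ hc) hq2 hv2 with ⟨g2, hg2W, hg2v, hg2q⟩ |
    ⟨i', l', -, c', -, a', s', g', v', Φ'', hs', hCv', hi'⟩
  · -- regular window around a critical point
    have hwm : ∀ t ∈ Sp (Real.log θ) 0, e1 * sa a t ∈ ball (0 : ℂ) 1 := fun t ht => by
      rw [mem_ball_zero_iff, norm_mul, he1n, one_mul]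
      exact sa_lt' hθ hθ1 haθ ht
    have hall : ∀ t ∈ Sp (Real.log θ) 0, q t = g2 (e1 * sa a t) := by
      refine st_uniq h (k := k) (K := 0) hθ hW (q' := fun t => g2 (e1 * sa a t)) hq.continuousOn ?_ hv0 ?_ (hzm t0 ht0S) ?_
      · exact hg2W.diff.continuousOn.comp (continuousOn_const.mul (sa_diff' hθ haθ).continuousOn) hwm
      · intro t ht
        obtain ⟨e2, e3⟩ := hg2v _ (hwm t ht)
        refine ⟨?_, ?_⟩
        · show g2 (e1 * sa a t) ∈ dm f U J δ (k + 0)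
          rw [add_zero, ← hil, show i + 1 + l = i + (l + 1) by ring]
          exact e2
        · show f^[k] (g2 (e1 * sa a t)) = Φ (Complex.exp t)
          have e4 : σ * (e1 * sa a t) = s * sa a t := by
            rw [hσ, show s * e1 * (e1 * sa a t) = s * (e1 * e1) * sa a t by ring, he11, mul_one]
          rw [← hil, show i + 1 + l = l + (i + 1) by ring, Function.iterate_add_apply, Function.iterate_succ_apply', e3,
            e4, (hCv.val _ (hsb t ht)).2, hbs, bet_sa' hθ hθ1 haθ ht, hg2 t ht]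
      · show q (Zt a t0) = g2 (e1 * sa a (Zt a t0))
        rw [he t0 ht0S, ← mul_assoc, he11, one_mul]
        exact hg2q t0 ht0S
    have hcA : c ∈ {b | b ∈ Cr ∧ Rc f b z} := by
      refine ⟨hc, hcr c hc (l + 1) ?_⟩
      have := (hCv.wd.val 0 (mem_ball_self one_pos)).2
      rwa [hCv.z0] at this
    refine hla c hcA (l + 1) i y 0 ε (fun x => Φ' (σ * x)) g2 hy hεε3 hW2 (by rw [norm_zero]; exact hd0.le) hΦ20 hg2W.diff hg2v ?_
    -- the distance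
    have hsaζ : ‖sa a ζ‖ ≤ R := hRx a (sa a ζ) ζ haθ (sa_lt' hθ hθ1 haθ hζ) (bet_sa' hθ hθ1 haθ hζ) hζb
    have hwR : e1 * sa a ζ ∈ closedBall (0 : ℂ) R := by
      rw [mem_closedBall_zero_iff, norm_mul, he1n, one_mul]
      exact hsaζ
    have hz0 : (0 : ℂ) ∈ closedBall (0 : ℂ) R := mem_closedBall_self hR0.le
    obtain ⟨-, d1, -, -⟩ := hdis g2 hg2W.diff hg2W.inj _ hwR 0 hz0
    obtain ⟨d0, -, d2, -⟩ := hdis g2 hg2W.diff hg2W.inj 0 hz0 _ hwR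
    have hds : ‖deriv (sa a) ζ‖ ≤ 1 / r := by
      have hsub := hrS ζ hζa hζb
      refine Complex.norm_deriv_le_of_forall_mem_sphere_norm_le hr ?_ ?_
      · refine DifferentiableOn.diffContOnCl_ball (U := Sp (Real.log θ) 0) ?_ hsub
        exact sa_diff' hθ haθ
      · intro w hw
        exact (sa_lt' hθ hθ1 haθ (hsub (sphere_subset_closedBall hw))).le
    have hdq : deriv q ζ = deriv g2 (e1 * sa a ζ) * (e1 * deriv (sa a) ζ) := by
      have e2 : q =ᶠ[𝓝 ζ] fun t => g2 (e1 * sa a t) := by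
        filter_upwards [(Sp_open _ _).mem_nhds hζ] with t ht
        exact hall t ht
      have e3 : HasDerivAt (sa a) (deriv (sa a) ζ) ζ :=
        ((sa_diff' hθ haθ).differentiableAt ((Sp_open _ _).mem_nhds hζ)).hasDerivAt
      have e4 : HasDerivAt g2 (deriv g2 (e1 * sa a ζ)) (e1 * sa a ζ) :=
        (hg2W.diff.differentiableAt (isOpen_ball.mem_nhds (hwm ζ hζ))).hasDerivAt
      rw [e2.deriv_eq]
      exact (HasDerivAt.comp (h₂ := g2) (h := fun t => e1 * sa a t) ζ e4 (e3.const_mul e1)).deriv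
    have hqn : ‖deriv q ζ‖ ≤ D * ‖deriv g2 0‖ * (1 / r) := by
      rw [hdq, norm_mul, norm_mul, he1n, one_mul]
      exact mul_le_mul d1 hds (norm_nonneg _) (by positivity)
    have h5 : ‖q ζ - z‖ ≤ |M| * (D * ‖deriv g2 0‖ * (1 / r)) := by
      refine hqz.trans ?_
      calc M * ‖deriv q ζ‖ ≤ |M| * ‖deriv q ζ‖ := mul_le_mul_of_nonneg_right (le_abs_self M) (norm_nonneg _)
        _ ≤ _ := mul_le_mul_of_nonneg_left hqn (abs_nonneg M)
    have h6 : ‖g2 0 - q ζ‖ ≤ D * ‖deriv g2 0‖ := by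
      rw [hall ζ hζ]
      refine d2.trans ?_
      have : ‖(0 : ℂ) - e1 * sa a ζ‖ ≤ 1 := by
        rw [zero_sub, norm_neg]
        exact (mem_closedBall_zero_iff.1 hwR).trans hR1.le
      have h7 : 0 ≤ D * ‖deriv g2 0‖ := by positivity
      nlinarith
    calc ‖g2 0 - z‖ = ‖(g2 0 - q ζ) + (q ζ - z)‖ := by rw [sub_add_sub_cancel]
      _ ≤ ‖g2 0 - q ζ‖ + ‖q ζ - z‖ := norm_add_le _ _
      _ ≤ D * ‖deriv g2 0‖ + |M| * (D * ‖deriv g2 0‖ * (1 / r)) := add_le_add h6 h5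
      _ = _ := by ring
  · -- a second critical time: the period is too short
    have h2m : t0 + 2 * Real.pi * Complex.I ∈ Sp (Real.log (dth θ)) 0 := by
      have : (t0 + 2 * Real.pi * Complex.I).re = t0.re := by simp
      show _ < (t0 + 2 * Real.pi * Complex.I).re ∧ (t0 + 2 * Real.pi * Complex.I).re < 0
      rw [this]
      exact ht0S
    have e2 : q (Zt a (t0 + 2 * Real.pi * Complex.I)) = q (Zt a t0) := by
      rw [zt_per]
      exact hper _ (hzm t0 ht0S)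
    have e3 : Φ'' (s' * sa a' (t0 + 2 * Real.pi * Complex.I)) = Φ'' (s' * sa a' t0) := by
      rw [← hi' t0 ht0S, ← hi' _ h2m, e2]
    have hs'n : ‖s'‖ = 1 := by rcases hs' with rfl | rfl <;> simp
    have hm' : ∀ t ∈ Sp (Real.log (dth θ)) 0, s' * sa a' t ∈ ball (0 : ℂ) 1 := fun t ht => by
      rw [mem_ball_zero_iff, norm_mul, hs'n, one_mul]
      exact sa_lt' hd0 hd1 hCv'.ca ht
    have e4 := hCv'.wd.inj (hm' _ h2m) (hm' _ ht0S) e3
    rw [sa_turn] at e4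
    have e5 : sa a' t0 ≠ 0 := Complex.exp_ne_zero _
    have hs'0 : s' ≠ 0 := by
      intro h0
      rw [h0, norm_zero] at hs'n
      exact zero_ne_one hs'n
    have e6 := mul_left_cancel₀ hs'0 e4
    apply e5
    have : (2 : ℂ) * sa a' t0 = 0 := by linear_combination -e6
    simpa using this

end Pool.Agent.H44.TY
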