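import Pool.Agent.H56.WP.Stp

/-!
# The coordinate `sa` of the double cover of the collar on the full strip (H55/PB/Sa is on rectangles)
-/

set_option autoImplicit false

open Filter Topology Metric Set

namespace Pool.Agent.H44.TY

open Pool.Agent.H56.UD Pool.Agent.H55.PB Pool.Agent.H56.WP

theorem arg_lt' {θ : ℝ} (hθ : 0 < θ) {α ζ : ℂ} (hα : ‖α‖ ≤ θ) (h : ζ ∈ Sp (Real.log θ) 0) :
    ‖α * Complex.exp (-ζ)‖ < 1 ∧ ‖(starRingEnd ℂ) α * Complex.exp ζ‖ < 1 := by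
  obtain ⟨h1, h2⟩ := (Sp_exp1 hθ).1 h
  have h3 : 0 < ‖Complex.exp ζ‖ := lt_trans hθ h1
  constructor
  · rw [norm_mul, Complex.exp_neg, norm_inv, ← div_eq_mul_inv, div_lt_one h3]
    linarith
  · rw [norm_mul, RCLike.norm_conj]
    have := norm_nonneg α
    nlinarith

theorem La_diff' {θ : ℝ} (hθ : 0 < θ) {α : ℂ} (hα : ‖α‖ ≤ θ) : DifferentiableOn ℂ (La α) (Sp (Real.log θ) 0) := by
  intro ζ hζ
  obtain ⟨h1, h2⟩ := arg_lt' hθ hα hζ
  have e1 : DifferentiableAt ℂ (fun ζ => 1 - α * Complex.exp (-ζ)) ζ := by fun_prop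
  have e2 : DifferentiableAt ℂ (fun ζ => 1 - (starRingEnd ℂ) α * Complex.exp ζ) ζ := by fun_prop
  exact ((e1.clog (slit_of h1)).sub (e2.clog (slit_of h2))).differentiableWithinAt

theorem sa_diff' {θ : ℝ} (hθ : 0 < θ) {α : ℂ} (hα : ‖α‖ ≤ θ) : DifferentiableOn ℂ (sa α) (Sp (Real.log θ) 0) :=
  ((differentiableOn_id.add (La_diff' hθ hα)).div_const 2).cexp

theorem exp_La' {θ : ℝ} (hθ : 0 < θ) {α ζ : ℂ} (hα : ‖α‖ ≤ θ) (h : ζ ∈ Sp (Real.log θ) 0) :
    Complex.exp (La α ζ) = (1 - α * Complex.exp (-ζ)) / (1 - (starRingEnd ℂ) α * Complex.exp ζ) := by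
  obtain ⟨h1, h2⟩ := arg_lt' hθ hα h
  rw [La, Complex.exp_sub, Complex.exp_log (Complex.slitPlane_ne_zero (slit_of h1)),
    Complex.exp_log (Complex.slitPlane_ne_zero (slit_of h2))]

theorem sa_sq' {θ : ℝ} (hθ : 0 < θ) {α ζ : ℂ} (hα : ‖α‖ ≤ θ) (h : ζ ∈ Sp (Real.log θ) 0) :
    sa α ζ ^ 2 = (Complex.exp ζ - α) / (1 - (starRingEnd ℂ) α * Complex.exp ζ) := by
  have e1 : sa α ζ ^ 2 = Complex.exp ζ * Complex.exp (La α ζ) := by
    rw [sa, ← Complex.exp_nat_mul, ← Complex.exp_add]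
    congr 1
    push_cast
    ring
  rw [e1, exp_La' hθ hα h, Complex.exp_neg, mul_div_assoc']
  congr 1
  have := Complex.exp_ne_zero ζ
  field_simp

theorem sa_lt' {θ : ℝ} (hθ : 0 < θ) (hθ1 : θ < 1) {α ζ : ℂ} (hα : ‖α‖ ≤ θ) (h : ζ ∈ Sp (Real.log θ) 0) : ‖sa α ζ‖ < 1 := by
  have h1 : ‖-α‖ < 1 := by rw [norm_neg]; linarith
  have h2 := mob_lt (α := -α) h1 ((Sp_exp1 hθ).1 h).2
  have h3 : ‖sa α ζ ^ 2‖ < 1 := by
    rw [sa_sq' hθ hα h]
    simpa [sub_eq_add_neg, map_neg] using h2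
  rw [norm_pow] at h3
  by_contra hcon
  push Not at hcon
  nlinarith [norm_nonneg (sa α ζ)]

theorem bet_sa' {θ : ℝ} (hθ : 0 < θ) (hθ1 : θ < 1) {α ζ : ℂ} (hα : ‖α‖ ≤ θ) (h : ζ ∈ Sp (Real.log θ) 0) :
    bet α (sa α ζ) = Complex.exp ζ := by
  have hα1 : ‖α‖ < 1 := lt_of_le_of_lt hα hθ1
  have hd := den_ne hα1 ((Sp_exp1 hθ).1 h).2
  have hd2 := den_ne2 hα1 (sa_lt' hθ hθ1 hα h)
  have h1 := one_ne hα1
  rw [bet, div_eq_iff hd2, sa_sq' hθ hα h, mul_add, mul_one, ← mul_assoc, mul_div_assoc', ← sub_eq_zero]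
  have e : (Complex.exp ζ - α) / (1 - (starRingEnd ℂ) α * Complex.exp ζ) + α -
      (Complex.exp ζ + Complex.exp ζ * (starRingEnd ℂ) α * (Complex.exp ζ - α) /
        (1 - (starRingEnd ℂ) α * Complex.exp ζ)) =
      ((Complex.exp ζ - α) + (α - Complex.exp ζ) * (1 - (starRingEnd ℂ) α * Complex.exp ζ)
        - Complex.exp ζ * (starRingEnd ℂ) α * (Complex.exp ζ - α)) / (1 - (starRingEnd ℂ) α * Complex.exp ζ) := by
    rw [eq_div_iff hd]
    have e1 := div_mul_cancel₀ (Complex.exp ζ - α) hd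
    have e2 := div_mul_cancel₀ (Complex.exp ζ * (starRingEnd ℂ) α * (Complex.exp ζ - α)) hd
    linear_combination e1 - e2
  rw [e]
  apply div_eq_zero_iff.2
  left
  ring

/-- the inverse of the coordinate: `exp (Zt a t) = bet a (exp t)` -/
noncomputable def Zt (α t : ℂ) : ℂ :=
  2 * t + (Complex.log (1 + α * Complex.exp (-(2 * t))) - Complex.log (1 + (starRingEnd ℂ) α * Complex.exp (2 * t)))

/-- the arguments of the logarithms -/
theorem zt_lt {θ : ℝ} (hθ : 0 < θ) (hθ1 : θ < 1) {α t : ℂ} (hα : ‖α‖ ≤ θ) (h : t ∈ Sp (Real.log (dth θ)) 0) :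
    ‖α * Complex.exp (-(2 * t))‖ < 1 ∧ ‖(starRingEnd ℂ) α * Complex.exp (2 * t)‖ < 1 := by
  obtain ⟨h1, h2⟩ := (Sp_exp1 (dth_pos hθ)).1 h
  have e0 : Complex.exp (2 * t) = Complex.exp t ^ 2 := by
    rw [← Complex.exp_nat_mul]; push_cast; rfl
  have e1 : ‖Complex.exp (2 * t)‖ = ‖Complex.exp t‖ ^ 2 := by rw [e0, norm_pow]
  have e2 : dth θ ^ 2 = 2 * θ / (1 + θ ^ 2) := by
    unfold dth
    exact Real.sq_sqrt (by positivity)
  have e3 : θ < dth θ ^ 2 := by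
    rw [e2, lt_div_iff₀ (by positivity)]
    nlinarith
  have e4 : dth θ ^ 2 < ‖Complex.exp t‖ ^ 2 := by
    have := dth_pos hθ
    nlinarith
  have e5 : ‖Complex.exp t‖ ^ 2 < 1 := by
    have := norm_nonneg (Complex.exp t)
    nlinarith
  have h3 : 0 < ‖Complex.exp (2 * t)‖ := by rw [e1]; linarith
  constructor
  · rw [norm_mul, Complex.exp_neg, norm_inv, ← div_eq_mul_inv, div_lt_one h3, e1]
    linarith
  · rw [norm_mul, RCLike.norm_conj, e1]
    have := norm_nonneg α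
    nlinarith

theorem slit_add {z : ℂ} (h : ‖z‖ < 1) : 1 + z ∈ Complex.slitPlane := by
  have := slit_of (z := -z) (by rwa [norm_neg])
  rwa [sub_neg_eq_add] at this

theorem zt_diff {θ : ℝ} (hθ : 0 < θ) (hθ1 : θ < 1) {α : ℂ} (hα : ‖α‖ ≤ θ) :
    DifferentiableOn ℂ (Zt α) (Sp (Real.log (dth θ)) 0) := by
  intro t ht
  obtain ⟨h1, h2⟩ := zt_lt hθ hθ1 hα ht
  have e1 : DifferentiableAt ℂ (fun t : ℂ => 1 + α * Complex.exp (-(2 * t))) t := by fun_prop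
  have e2 : DifferentiableAt ℂ (fun t : ℂ => 1 + (starRingEnd ℂ) α * Complex.exp (2 * t)) t := by fun_prop
  have e3 : DifferentiableAt ℂ (fun t : ℂ => 2 * t) t := by fun_prop
  exact (e3.add ((e1.clog (slit_add h1)).sub (e2.clog (slit_add h2)))).differentiableWithinAt

theorem zt_exp {θ : ℝ} (hθ : 0 < θ) (hθ1 : θ < 1) {α t : ℂ} (hα : ‖α‖ ≤ θ) (h : t ∈ Sp (Real.log (dth θ)) 0) :
    Complex.exp (Zt α t) = bet α (Complex.exp t) := by
  obtain ⟨h1, h2⟩ := zt_lt hθ hθ1 hα h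
  have e0 : Complex.exp (2 * t) = Complex.exp t ^ 2 := by
    rw [← Complex.exp_nat_mul]; push_cast; rfl
  have hne := Complex.exp_ne_zero t
  rw [Zt, Complex.exp_add, Complex.exp_sub, Complex.exp_log (Complex.slitPlane_ne_zero (slit_add h1)),
    Complex.exp_log (Complex.slitPlane_ne_zero (slit_add h2)), bet, Complex.exp_neg, e0, mul_div_assoc']
  congr 1
  field_simp

theorem zt_mem {θ : ℝ} (hθ : 0 < θ) (hθ1 : θ < 1) {α t : ℂ} (hα : ‖α‖ ≤ θ) (h : t ∈ Sp (Real.log (dth θ)) 0) :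
    Zt α t ∈ Sp (Real.log θ) 0 := by
  obtain ⟨h1, h2⟩ := (Sp_exp1 (dth_pos hθ)).1 h
  rw [Sp_exp1 hθ, zt_exp hθ hθ1 hα h]
  refine ⟨bet_col hθ hθ1 hα h2 h1, ?_⟩
  exact mem_ball_zero_iff.1 (bet_lt (hα.trans_lt hθ1) (mem_ball_zero_iff.2 h2))

theorem zt_per (α t : ℂ) : Zt α (t + 2 * Real.pi * Complex.I) = Zt α t + 4 * Real.pi * Complex.I := by
  have e1 : Complex.exp (2 * (t + 2 * Real.pi * Complex.I)) = Complex.exp (2 * t) := by
    have := exp_int (2 * t) 2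
    rw [← this]
    congr 1
    push_cast
    ring
  have e2 : Complex.exp (-(2 * (t + 2 * Real.pi * Complex.I))) = Complex.exp (-(2 * t)) := by
    rw [Complex.exp_neg, e1, Complex.exp_neg]
  rw [Zt, Zt, e1, e2]
  ring

/-- `sa` and `Zt` are inverse to each other: the point over `ζ` -/
theorem zt_sa {θ : ℝ} (hθ : 0 < θ) (hθ1 : θ < 1) {α ζ : ℂ} (hα : ‖α‖ ≤ θ) (h : ζ ∈ Sp (Real.log θ) 0)
    (h2 : (ζ + La α ζ) / 2 ∈ Sp (Real.log (dth θ)) 0) : Zt α ((ζ + La α ζ) / 2) = ζ := by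
  have h3 := zt_exp hθ hθ1 hα h2
  rw [show Complex.exp ((ζ + La α ζ) / 2) = sa α ζ from rfl, bet_sa' hθ hθ1 hα h] at h3
  obtain ⟨m, hm⟩ := Complex.exp_eq_exp_iff_exists_int.1 h3
  obtain ⟨a1, a2⟩ := arg_lt' hθ hα h
  obtain ⟨b1, b2⟩ := zt_lt hθ hθ1 hα h2
  have key : ∀ z : ℂ, z ∈ Complex.slitPlane → 0 < z.re → |(Complex.log z).im| < Real.pi / 2 := by
    intro z _ hz
    rw [Complex.log_im]
    exact Complex.abs_arg_lt_pi_div_two_iff.2 (Or.inl hz)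
  have pos : ∀ w : ℂ, ‖w‖ < 1 → 0 < (1 - w).re ∧ 0 < (1 + w).re := by
    intro w hw
    have h5 := abs_lt.1 ((Complex.abs_re_le_norm w).trans_lt hw)
    constructor
    · simp only [Complex.sub_re, Complex.one_re]; linarith
    · simp only [Complex.add_re, Complex.one_re]; linarith
  have c1 := key _ (slit_of a1) (pos _ a1).1
  have c2 := key _ (slit_of a2) (pos _ a2).1
  have c3 := key _ (slit_add b1) (pos _ b1).2
  have c4 := key _ (slit_add b2) (pos _ b2).2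
  have him : ((m : ℂ) * (2 * Real.pi * Complex.I)).im = m * (2 * Real.pi) := by
    simp
  have e1 : (m : ℂ) * (2 * Real.pi * Complex.I) = Complex.log (1 - α * Complex.exp (-ζ)) -
      Complex.log (1 - (starRingEnd ℂ) α * Complex.exp ζ) +
      (Complex.log (1 + α * Complex.exp (-(2 * ((ζ + La α ζ) / 2)))) -
        Complex.log (1 + (starRingEnd ℂ) α * Complex.exp (2 * ((ζ + La α ζ) / 2)))) := by
    have e2 : Zt α ((ζ + La α ζ) / 2) = ζ + La α ζ + (Complex.log (1 + α * Complex.exp (-(2 * ((ζ + La α ζ) / 2)))) -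
        Complex.log (1 + (starRingEnd ℂ) α * Complex.exp (2 * ((ζ + La α ζ) / 2)))) := by
      rw [Zt]; ring
    rw [e2] at hm
    have e3 : La α ζ = Complex.log (1 - α * Complex.exp (-ζ)) - Complex.log (1 - (starRingEnd ℂ) α * Complex.exp ζ) := rfl
    linear_combination e3 - hm
  have e4 := congrArg Complex.im e1
  rw [him] at e4
  simp only [Complex.add_im, Complex.sub_im] at e4
  have hπ := Real.pi_pos
  have e5 : |(m : ℝ) * (2 * Real.pi)| < 2 * Real.pi := by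
    rw [e4]
    rw [abs_lt] at c1 c2 c3 c4 ⊢
    constructor <;> linarith [c1.1, c1.2, c2.1, c2.2, c3.1, c3.2, c4.1, c4.2]
  have e6 : m = 0 := by
    rw [abs_mul, abs_of_pos (by positivity : 0 < 2 * Real.pi)] at e5
    have e7 : |(m : ℝ)| < 1 := by
      by_contra hn
      push Not at hn
      nlinarith
    have e8 : |m| < 1 := by exact_mod_cast e7
    exact Int.abs_lt_one_iff.1 e8
  rw [hm, e6]
  simp

end Pool.Agent.H44.TY
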