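import Pool.Agent.H44.TY.Clc
import Pool.Agent.H80.AJ.Cover

/-!
# Transport of bounded distance along the collar
-/

set_option autoImplicit false

open Filter Topology Metric Set MeasureTheory

namespace Pool.Agent.H44.TY

open Pool.Agent.H56.UD Pool.Agent.H55.PB Pool.Agent.H56.WP Pool.Agent.H80.AJ

/-- chains of discs in a slab -/
theorem chain {A α0 β0 B d : ℝ} (hd : 0 < d) (hA : A + d ≤ α0) (hB : β0 + d ≤ B) (n : ℕ) :
    ∃ C : ℝ, 0 ≤ C ∧ ∀ q : ℂ → ℂ, DifferentiableOn ℂ q (Sp A B) → (∀ p : ℂ, ball p d ⊆ Sp A B → InjOn q (ball p d)) →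
      ∀ ζ ζ' : ℂ, α0 ≤ ζ.re → ζ.re ≤ β0 → α0 ≤ ζ'.re → ζ'.re ≤ β0 → ‖ζ - ζ'‖ ≤ n * (d / 2) →
        ‖deriv q ζ‖ ≤ C * ‖deriv q ζ'‖ ∧ ‖q ζ - q ζ'‖ ≤ C * ‖deriv q ζ'‖ := by
  have hsub : ∀ p : ℂ, α0 ≤ p.re → p.re ≤ β0 → ball p d ⊆ Sp A B := by
    intro p h1 h2 w hw
    rw [mem_ball, dist_eq_norm] at hw
    have h3 := abs_lt.1 ((Complex.abs_re_le_norm (w - p)).trans_lt hw)
    rw [Complex.sub_re] at h3
    exact ⟨by linarith [h3.1], by linarith [h3.2]⟩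
  induction n with
  | zero =>
    refine ⟨1, zero_le_one, fun q _ _ ζ ζ' _ _ _ _ h5 => ?_⟩
    have h6 : ζ = ζ' := by
      have : ‖ζ - ζ'‖ ≤ 0 := by simpa using h5
      exact sub_eq_zero.1 (norm_le_zero_iff.1 this)
    rw [h6, sub_self, norm_zero]
    exact ⟨by rw [one_mul], by positivity⟩
  | succ n ih =>
    obtain ⟨C, hC, hh⟩ := ih
    have hK := KK_pos
    refine ⟨max (KK * C) (KK * C * (d / 2) + C), le_max_of_le_left (by positivity), fun q hq hi ζ ζ' h1 h2 h3 h4 h5 => ?_⟩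
    -- the next point
    set s : ℝ := 1 / ((n : ℝ) + 1) with hs
    have hn : (0 : ℝ) < (n : ℝ) + 1 := by positivity
    have hs0 : 0 < s := by rw [hs]; positivity
    have hs1 : s ≤ 1 := by
      rw [hs, div_le_one hn]
      have : (0 : ℝ) ≤ n := n.cast_nonneg
      linarith
    set p : ℂ := ζ + (s : ℂ) * (ζ' - ζ) with hp
    have hpre : p.re = ζ.re + s * (ζ'.re - ζ.re) := by
      rw [hp, Complex.add_re, Complex.re_ofReal_mul, Complex.sub_re]
    have hp1 : α0 ≤ p.re := by rw [hpre]; nlinarith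
    have hp2 : p.re ≤ β0 := by rw [hpre]; nlinarith
    have h6 : ‖ζ - p‖ ≤ d / 2 := by
      rw [hp, show ζ - (ζ + (s : ℂ) * (ζ' - ζ)) = (s : ℂ) * (ζ - ζ') by ring, norm_mul, Complex.norm_real,
        Real.norm_of_nonneg hs0.le]
      calc s * ‖ζ - ζ'‖ ≤ s * ((n + 1 : ℕ) * (d / 2)) := mul_le_mul_of_nonneg_left h5 hs0.le
        _ = d / 2 := by rw [hs]; push_cast; field_simp
    have h7 : ‖p - ζ'‖ ≤ n * (d / 2) := by
      rw [hp, show ζ + (s : ℂ) * (ζ' - ζ) - ζ' = ((1 - s : ℝ) : ℂ) * (ζ - ζ') by push_cast; ring, norm_mul, Complex.norm_real,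
        Real.norm_of_nonneg (by linarith)]
      calc (1 - s) * ‖ζ - ζ'‖ ≤ (1 - s) * ((n + 1 : ℕ) * (d / 2)) := mul_le_mul_of_nonneg_left h5 (by linarith)
        _ = n * (d / 2) := by rw [hs]; push_cast; field_simp; ring
    obtain ⟨e1, e2⟩ := hh q hq hi p ζ' hp1 hp2 h3 h4 h7
    have hb := hsub p hp1 hp2
    have hin : ζ ∈ closedBall p (d / 2) := by rw [mem_closedBall, dist_eq_norm]; exact h6
    have hpp : p ∈ closedBall p (d / 2) := mem_closedBall_self (by positivity)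
    have e3 := distort hd (hq.mono hb) (hi p hb) hin hpp
    have e4 := distort_lip hd (hq.mono hb) (hi p hb) hin hpp hpp
    constructor
    · calc ‖deriv q ζ‖ ≤ KK * ‖deriv q p‖ := e3
        _ ≤ KK * (C * ‖deriv q ζ'‖) := mul_le_mul_of_nonneg_left e1 hK.le
        _ = (KK * C) * ‖deriv q ζ'‖ := by ring
        _ ≤ _ := mul_le_mul_of_nonneg_right (le_max_left _ _) (norm_nonneg _)
    · calc ‖q ζ - q ζ'‖ ≤ ‖q ζ - q p‖ + ‖q p - q ζ'‖ := norm_sub_le_norm_sub_add_norm_sub _ _ _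
        _ ≤ KK * ‖deriv q p‖ * ‖ζ - p‖ + C * ‖deriv q ζ'‖ := add_le_add e4 e2
        _ ≤ KK * (C * ‖deriv q ζ'‖) * (d / 2) + C * ‖deriv q ζ'‖ := by
          refine add_le_add ?_ le_rfl
          exact mul_le_mul (mul_le_mul_of_nonneg_left e1 hK.le) h6 (norm_nonneg _) (by positivity)
        _ = (KK * C * (d / 2) + C) * ‖deriv q ζ'‖ := by ring
        _ ≤ _ := mul_le_mul_of_nonneg_right (le_max_right _ _) (norm_nonneg _)

/-- lifts of collars are injective on discs of radius at most `π` -/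
theorem st_inj {f : ℂ → ℂ} {U J P : Set ℂ} {δ : ℝ} {K k : ℕ} {θ : ℝ} {y : ℂ} {ε : ℝ} {Φ q : ℂ → ℂ} (hθ : 0 < θ)
    (hW : Wd f U J P δ K θ y ε Φ) (hv : ∀ t ∈ Sp (Real.log θ) 0, f^[k] (q t) = Φ (Complex.exp t)) {p : ℂ} {d : ℝ}
    (hd : d ≤ Real.pi) (hp : ball p d ⊆ Sp (Real.log θ) 0) : InjOn q (ball p d) := by
  intro t ht t' ht' he
  have h1 := hv t (hp ht)
  rw [he, hv t' (hp ht')] at h1
  have h2 := hW.inj (mem_ball_zero_iff.2 ((Sp_exp1 hθ).1 (hp ht')).2) (mem_ball_zero_iff.2 ((Sp_exp1 hθ).1 (hp ht)).2) h1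
  obtain ⟨m, hm⟩ := Complex.exp_eq_exp_iff_exists_int.1 h2
  have h3 : ‖t' - t‖ < 2 * Real.pi := by
    rw [mem_ball] at ht ht'
    rw [← dist_eq_norm]
    have := dist_triangle_right t' t p
    linarith
  have h4 : m = 0 := by
    have h5 : ‖t' - t‖ = |(m : ℝ)| * (2 * Real.pi) := by
      rw [hm, add_sub_cancel_left, norm_mul, norm_mul, norm_mul, Complex.norm_I, Complex.norm_real, Complex.norm_ofNat,
        Real.norm_of_nonneg Real.pi_pos.le, mul_one]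
      congr 1
      rw [show (m : ℂ) = ((m : ℝ) : ℂ) by push_cast; rfl, Complex.norm_real, Real.norm_eq_abs]
    rw [h5] at h3
    have h6 : |(m : ℝ)| < 1 := by
      by_contra hn
      push Not at hn
      nlinarith [Real.pi_pos]
    have h7 : |m| < 1 := by exact_mod_cast h6
    exact Int.abs_lt_one_iff.1 h7
  rw [h4] at hm
  rw [hm]
  simp

end Pool.Agent.H44.TY
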